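import Mathlib

set_option autoImplicit false

namespace Pool.Agent.H.MP_c42e77_an

open Set Filter Topology

/-- Every uncountable subset of the Cantor space has a nonempty dense-in-itself subset. -/
lemma exists_preperfect (S : Set (ℕ → Bool)) (hS : ¬ S.Countable) :
    ∃ T ⊆ S, T.Nonempty ∧ Preperfect T := by
  have h1 : ¬ (univ : Set S).Countable := by
    intro h
    apply hS
    exact (Set.countable_univ_iff.1 h).to_set
  obtain ⟨D, hD, hne, -⟩ :=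
    exists_perfect_nonempty_of_isClosed_of_not_countable (α := S) isClosed_univ h1
  refine ⟨Subtype.val '' D, ?_, hne.image _, ?_⟩
  · rintro _ ⟨y, -, rfl⟩
    exact y.2
  · rw [preperfect_iff_nhds]
    rintro _ ⟨y, hy, rfl⟩ U hU
    have hU' : Subtype.val ⁻¹' U ∈ 𝓝 y := continuous_subtype_val.continuousAt hU
    obtain ⟨z, ⟨hz1, hz2⟩, hz3⟩ := (preperfect_iff_nhds.1 hD.acc) y hy _ hU'
    exact ⟨z, ⟨hz1, ⟨z, hz2, rfl⟩⟩, fun h => hz3 (Subtype.ext h)⟩

/-- cylinder neighbourhood -/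
lemma cyl_mem_nhds (z : ℕ → Bool) (n : ℕ) : {y : ℕ → Bool | ∀ i ≤ n, y i = z i} ∈ 𝓝 z := by
  have h : {y : ℕ → Bool | ∀ i ≤ n, y i = z i} = Set.pi (Set.Iic n) (fun i => {z i}) := by
    ext y
    simp [Set.mem_pi]
  rw [h]
  refine set_pi_mem_nhds (Set.finite_Iic n) ?_
  intro i _
  exact IsOpen.mem_nhds (isOpen_discrete _) rfl

/-- neighbourhoods contain cylinders -/
lemma exists_cyl_subset (z : ℕ → Bool) (U : Set (ℕ → Bool)) (hU : U ∈ 𝓝 z) :
    ∃ n, {y : ℕ → Bool | ∀ i ≤ n, y i = z i} ⊆ U := by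
  rw [nhds_pi, Filter.mem_pi] at hU
  obtain ⟨I, hI, t, ht, hsub⟩ := hU
  obtain ⟨n, hn⟩ := hI.bddAbove
  refine ⟨n, fun y hy => hsub ?_⟩
  intro i hi
  rw [hy i (hn hi)]
  exact mem_of_mem_nhds (ht i)

/-- One step of the construction. -/
lemma step (S : Set (ℕ → Bool)) (hS : Preperfect S) (v : Bool)
    (hv : ∀ z ∈ S, ∀ᶠ n in (hyperfilter ℕ : Filter ℕ), z n = v)
    (F : Set (ℕ → Bool)) (hFf : F.Finite) (hFS : F ⊆ S) (n : ℕ) :
    ∃ (F' : Set (ℕ → Bool)) (n' : ℕ), F'.Finite ∧ F' ⊆ S ∧ F ⊆ F' ∧ n < n' ∧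
      (∀ z ∈ F', z n' = v) ∧
      (∀ z ∈ F', ∃ w ∈ F, ∀ i ≤ n, z i = w i) ∧
      (∀ z ∈ F, ∃ z' ∈ F', z' ≠ z ∧ ∀ i ≤ n, z' i = z i) := by
  have h1 : ∀ z : ℕ → Bool, ∃ z' : ℕ → Bool, z ∈ F → (z' ∈ S ∧ z' ≠ z ∧ ∀ i ≤ n, z' i = z i) := by
    intro z
    by_cases hz : z ∈ F
    · obtain ⟨y, ⟨hy1, hy2⟩, hy3⟩ :=
        (preperfect_iff_nhds.1 hS) z (hFS hz) _ (cyl_mem_nhds z n)
      exact ⟨y, fun _ => ⟨hy2, hy3, hy1⟩⟩
    · exact ⟨z, fun h => absurd h hz⟩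
  choose s hs using h1
  have hF'f : (F ∪ s '' F).Finite := hFf.union (hFf.image s)
  have hF'S : F ∪ s '' F ⊆ S := by
    rintro z (hz | ⟨y, hy, rfl⟩)
    · exact hFS hz
    · exact (hs y hy).1
  have h2 : ∀ᶠ m in (hyperfilter ℕ : Filter ℕ), (∀ z ∈ F ∪ s '' F, z m = v) ∧ n < m := by
    refine Filter.Eventually.and ?_ ?_
    · rw [Filter.eventually_all_finite hF'f]
      intro z hz
      exact hv z (hF'S hz)
    · have : ∀ᶠ m in (atTop : Filter ℕ), n < m := eventually_gt_atTop n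
      rw [← Nat.cofinite_eq_atTop] at this
      exact (Filter.hyperfilter_le_cofinite (α := ℕ)) this
  obtain ⟨m, hm1, hm2⟩ := h2.exists
  refine ⟨F ∪ s '' F, m, hF'f, hF'S, subset_union_left, hm2, hm1, ?_, ?_⟩
  · rintro z (hz | ⟨y, hy, rfl⟩)
    · exact ⟨z, hz, fun _ _ => rfl⟩
    · exact ⟨y, hy, (hs y hy).2.2⟩
  · intro z hz
    exact ⟨s z, Or.inr ⟨z, hz, rfl⟩, (hs z hz).2⟩

/-- Mazurkiewicz-type theorem: an uncountable closed subset `C` of the Cantor space has a nonempty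
perfect subset on which infinitely many coordinates are constant with the same value. -/
theorem exists_perfect_const (C : Set (ℕ → Bool)) (hC : IsClosed C) (hunc : ¬ C.Countable) :
    ∃ (D : Set (ℕ → Bool)) (n : ℕ → ℕ) (v : Bool), Perfect D ∧ D.Nonempty ∧ D ⊆ C ∧
      StrictMono n ∧ ∀ z ∈ D, ∀ k, z (n k) = v := by
  -- choose the value v
  obtain ⟨v, hv⟩ : ∃ v : Bool,
      ¬ ({z ∈ C | ∀ᶠ n in (hyperfilter ℕ : Filter ℕ), z n = v}).Countable := by
    by_contra hcon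
    push Not at hcon
    apply hunc
    refine Set.Countable.mono ?_ ((hcon true).union (hcon false))
    intro z hz
    by_cases h : ∀ᶠ n in (hyperfilter ℕ : Filter ℕ), z n = true
    · exact Or.inl ⟨hz, h⟩
    · right
      refine ⟨hz, ?_⟩
      rw [← Ultrafilter.eventually_not] at h
      filter_upwards [h] with n hn
      simpa using hn
  obtain ⟨S, hSsub, hSne, hSp⟩ := exists_preperfect _ hv
  obtain ⟨z0, hz0⟩ := hSne
  have hSv : ∀ z ∈ S, ∀ᶠ n in (hyperfilter ℕ : Filter ℕ), z n = v := fun z hz => (hSsub hz).2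
  have hSC : S ⊆ C := fun z hz => (hSsub hz).1
  -- the sequence
  let P : Type := {p : Set (ℕ → Bool) × ℕ // p.1.Finite ∧ p.1 ⊆ S}
  have hstep : ∀ p : P, ∃ q : P, p.1.1 ⊆ q.1.1 ∧ p.1.2 < q.1.2 ∧
      (∀ z ∈ q.1.1, z q.1.2 = v) ∧
      (∀ z ∈ q.1.1, ∃ w ∈ p.1.1, ∀ i ≤ p.1.2, z i = w i) ∧
      (∀ z ∈ p.1.1, ∃ z' ∈ q.1.1, z' ≠ z ∧ ∀ i ≤ p.1.2, z' i = z i) := by
    rintro ⟨⟨F, n⟩, hF1, hF2⟩
    obtain ⟨F', n', h1, h2, h3, h4, h5, h6, h7⟩ := step S hSp v hSv F hF1 hF2 n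
    exact ⟨⟨⟨F', n'⟩, h1, h2⟩, h3, h4, h5, h6, h7⟩
  choose nxt hn1 hn2 hn3 hn4 hn5 using hstep
  let p0 : P := ⟨⟨{z0}, 0⟩, Set.finite_singleton z0, by simpa using hz0⟩
  let p : ℕ → P := fun k => Nat.rec (nxt p0) (fun _ q => nxt q) k
  have hp0 : p 0 = nxt p0 := rfl
  have hpS : ∀ k, p (k + 1) = nxt (p k) := fun k => rfl
  have hmono : Monotone (fun k => (p k).1.1) := monotone_nat_of_le_succ (fun k => by
    simpa [hpS] using hn1 (p k))
  have hnm : StrictMono (fun k => (p k).1.2) := strictMono_nat_of_lt_succ (fun k => by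
    simpa [hpS] using hn2 (p k))
  have hval : ∀ k, ∀ z ∈ (p k).1.1, z (p k).1.2 = v := by
    intro k
    cases k with
    | zero => exact hn3 p0
    | succ k => exact hn3 (p k)
  have hagree : ∀ k j, ∀ z ∈ (p (k + j)).1.1, ∃ w ∈ (p k).1.1, ∀ i ≤ (p k).1.2, z i = w i := by
    intro k j
    induction j with
    | zero => intro z hz; exact ⟨z, hz, fun _ _ => rfl⟩
    | succ j ih =>
      intro z hz
      obtain ⟨w, hw, hw2⟩ := hn4 (p (k + j)) z hz
      obtain ⟨u, hu, hu2⟩ := ih w hw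
      refine ⟨u, hu, fun i hi => ?_⟩
      rw [hw2 i (hi.trans (hnm.monotone (Nat.le_add_right k j))), hu2 i hi]
  have hallv : ∀ m, ∀ z ∈ (p m).1.1, ∀ k, z (p k).1.2 = v := by
    intro m z hz k
    rcases le_total m k with h | h
    · exact hval k z (hmono h hz)
    · obtain ⟨j, rfl⟩ := Nat.exists_eq_add_of_le h
      obtain ⟨w, hw, hw2⟩ := hagree k j z hz
      rw [hw2 _ le_rfl]
      exact hval k w hw
  let F : Set (ℕ → Bool) := ⋃ k, (p k).1.1
  have hFpre : Preperfect F := by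
    rw [preperfect_iff_nhds]
    intro z hz U hU
    obtain ⟨k, hk⟩ := mem_iUnion.1 hz
    obtain ⟨N, hN⟩ := exists_cyl_subset z U hU
    have hNle : N ≤ (p (max k N)).1.2 := (le_max_right k N).trans (hnm.le_apply)
    have hzm : z ∈ (p (max k N)).1.1 := hmono (le_max_left k N) hk
    obtain ⟨z', hz'1, hz'2, hz'3⟩ := hn5 (p (max k N)) z hzm
    refine ⟨z', ⟨hN ?_, mem_iUnion.2 ⟨max k N + 1, hz'1⟩⟩, hz'2⟩
    intro i hi
    exact hz'3 i (hi.trans hNle)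
  have hFne : F.Nonempty := ⟨z0, mem_iUnion.2 ⟨0, hn1 p0 (by simp [p0])⟩⟩
  have hFS : F ⊆ S := by
    intro z hz
    obtain ⟨k, hk⟩ := mem_iUnion.1 hz
    exact (p k).2.2 hk
  refine ⟨closure F, fun k => (p k).1.2, v, hFpre.perfect_closure, hFne.closure, ?_, hnm, ?_⟩
  · exact closure_minimal (hFS.trans hSC) hC
  · have hcl : IsClosed {z : ℕ → Bool | ∀ k, z (p k).1.2 = v} := by
      rw [Set.ofPred_forall]
      refine isClosed_iInter (fun k => ?_)
      exact isClosed_eq (continuous_apply _) continuous_const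
    have : closure F ⊆ {z : ℕ → Bool | ∀ k, z (p k).1.2 = v} := by
      refine closure_minimal ?_ hcl
      intro z hz
      obtain ⟨m, hm⟩ := mem_iUnion.1 hz
      exact hallv m z hm
    exact fun z hz => this hz

/-- Cardinality of a set containing a nonempty perfect subset. -/
lemma mk_of_perfect_image {α : Type} (D : Set (ℕ → Bool)) (hD : Perfect D) (hne : D.Nonempty)
    (E : Set α) (g : (ℕ → Bool) → α) (hg : Set.InjOn g D) (hgE : Set.MapsTo g D E) :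
    Cardinal.continuum ≤ Cardinal.mk E := by
  let _ := TopologicalSpace.upgradeIsCompletelyMetrizable (ℕ → Bool)
  obtain ⟨f, hf1, hf2, hf3⟩ := hD.exists_nat_bool_injection hne
  have : Cardinal.mk (ℕ → Bool) = Cardinal.continuum := by simp
  rw [← this]
  refine Cardinal.mk_le_of_injective (f := fun z => (⟨g (f z), hgE (hf1 ⟨z, rfl⟩)⟩ : E)) ?_
  intro a b hab
  simp only [Subtype.mk.injEq] at hab
  exact hf3 (hg (hf1 ⟨a, rfl⟩) (hf1 ⟨b, rfl⟩) hab)

end Pool.Agent.H.MP_c42e77_an
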